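import Mathlib

set_option autoImplicit false

open Filter Topology

namespace Pool.Agent.Results.MP_f73544_nt.ContractingLoops

/-- The data of a generalized Collatz map: `T x = (m_i x + a_i) / d` for `x ≡ i (mod d)`, where
`m_i = b_i * D_i`, `b_i` is coprime to `d`, and `D_i` divides a power of `d`. -/
structure GenMap where
  d : ℕ
  b : ℕ → ℤ
  D : ℕ → ℕ
  a : ℕ → ℤ
  two_le : 2 ≤ d
  cop : ∀ i < d, IsCoprime (b i) (d : ℤ)
  Dpow : ∀ i < d, ∃ e : ℕ, D i ∣ d ^ e
  dvd : ∀ i < d, (d : ℤ) ∣ b i * D i * i + a i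

/-- A class `B(j, M k)` of integers, coded as the pair `(k, j)` with `0 ≤ j < M k`. -/
abbrev State := ℕ × ℤ

namespace GenMap

variable (G : GenMap) (M : ℕ)

/-- The residue `x mod d` in `{0, ..., d - 1}`. -/
def res (x : ℤ) : ℕ := (x % (G.d : ℤ)).toNat

/-- The map `T`. -/
def T (x : ℤ) : ℤ := (G.b (G.res x) * G.D (G.res x) * x + G.a (G.res x)) / (G.d : ℤ)

/-- `k' = d_j k / gcd (d_j k, d)`. -/
def nextK (k : ℕ) (j : ℤ) : ℕ := G.D (G.res j) * k / Nat.gcd (G.D (G.res j) * k) G.d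

/-- The sequence `k_n` of a starting point `x`. -/
def kseq (x : ℤ) : ℕ → ℕ
  | 0 => 1
  | n + 1 => G.nextK (kseq x n) (G.T^[n] x)

/-- `Y_n(x) = B(T^n x, M k_n)`. -/
def Y (x : ℤ) (n : ℕ) : State :=
  (G.kseq x n, (G.T^[n] x) % ((M * G.kseq x n : ℕ) : ℤ))

/-- The pairs of classes `B = B(j, M k)`, `B' = B(j', M k')` with `k' = k d_j / gcd (k d_j, d)` and
`j' ≡ T j` modulo `M k d_j / d`. -/
def Succ (s t : State) : Prop :=
  t.1 = G.nextK s.1 s.2 ∧ 0 ≤ t.2 ∧ t.2 < ((M * t.1 : ℕ) : ℤ) ∧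
    t.2 ≡ G.T s.2 [ZMOD ((M * s.1 * G.D (G.res s.2) / G.d : ℕ) : ℤ)]

open Classical in
/-- The transition probability `q_{B B'}`. -/
noncomputable def q (s t : State) : ℝ :=
  if G.Succ M s t then (Nat.gcd (G.D (G.res s.2) * s.1) G.d : ℝ) / G.d else 0

/-- A transition of positive probability. -/
def Step (s t : State) : Prop := 0 < G.q M s t

/-- The states of the chain: the classes reachable with positive probability from the classes
`B(i, M)`, `0 ≤ i < M`. -/
def states : Set State :=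
  {s | ∃ i : ℤ, 0 ≤ i ∧ i < M ∧ Relation.ReflTransGen (G.Step M) (1, i) s}

/-- The set of integers coded by a state. -/
def cls (s : State) : Set ℤ := {y | y ≡ s.2 [ZMOD ((M * s.1 : ℕ) : ℤ)]}

/-- A closed communicating class of states. -/
def IsRecurrentClass (C : Set State) : Prop :=
  C ⊆ G.states M ∧ C.Nonempty ∧ (∀ s ∈ C, ∀ t, G.Step M s t → t ∈ C) ∧
    ∀ s ∈ C, ∀ t ∈ C, Relation.ReflTransGen (G.Step M) s t

/-- A stationary distribution of the chain on the class `C`. -/
def IsStationary (C : Set State) (ρ : State → ℝ) : Prop :=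
  (∀ s ∈ C, 0 ≤ ρ s) ∧ ∑ᶠ s ∈ C, ρ s = 1 ∧ ∀ t ∈ C, ∑ᶠ s ∈ C, ρ s * G.q M s t = ρ t

/-- The trajectory of `x` is divergent: it is not eventually periodic. -/
def Divergent (x : ℤ) : Prop := ¬ ∃ n p : ℕ, 0 < p ∧ G.T^[n + p] x = G.T^[n] x

open Classical in
/-- The conclusion of Leigh's conjecture for the point `x`: some positive recurrent class `C`
eventually contains the trajectory, `C` has exactly one stationary distribution `ρ`, and the
occupation frequency of every `B ∈ C` is `ρ_B`. -/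
def LeighHolds (x : ℤ) : Prop :=
  ∃ C : Set State, G.IsRecurrentClass M C ∧
    (∀ᶠ n in atTop, G.T^[n] x ∈ ⋃ s ∈ C, cls M s) ∧
    ∃ ρ : State → ℝ, G.IsStationary M C ρ ∧
      (∀ ρ' : State → ℝ, G.IsStationary M C ρ' → ∀ s ∈ C, ρ' s = ρ s) ∧
      ∀ s ∈ C, Tendsto (fun K : ℕ =>
        (((Finset.range (K + 1)).filter fun n => G.Y M x n = s).card : ℝ) / ((K : ℝ) + 1))
        atTop (𝓝 (ρ s))

/-- The multiplier `|m_j| / d` of `T` on the class coded by `s`. -/
noncomputable def mult (s : State) : ℝ :=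
  |((G.b (G.res s.2) * G.D (G.res s.2) : ℤ) : ℝ)| / G.d

/-- A state from which two different transitions of positive probability lead to states
that can come back to it. -/
def Branching (s : State) : Prop :=
  ∃ t t' : State, t ≠ t' ∧ G.Step M s t ∧ G.Step M s t' ∧
    Relation.ReflTransGen (G.Step M) t s ∧ Relation.ReflTransGen (G.Step M) t' s

/-- Every closed walk of the chain that passes through a branching state has product of
multipliers less than `1`. -/
def BranchingLoopsContract : Prop :=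
  ∀ (n : ℕ) (g : ℕ → State), (∀ i < n, G.Step M (g i) (g (i + 1))) → g n = g 0 →
    g 0 ∈ G.states M → (∃ i < n, G.Branching M (g i)) → ∏ i ∈ Finset.range n, G.mult (g i) < 1

/-! ### Basic facts on `T` -/

variable {G M}

lemma d_pos : 0 < G.d := lt_of_lt_of_le (by norm_num) G.two_le

lemma d_posZ : (0 : ℤ) < G.d := by exact_mod_cast G.d_pos

lemma res_lt (x : ℤ) : G.res x < G.d := by
  have h0 := Int.emod_nonneg x G.d_posZ.ne'
  have h1 := Int.emod_lt_of_pos x G.d_posZ
  unfold res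
  omega

lemma res_cast (x : ℤ) : (G.res x : ℤ) = x % (G.d : ℤ) :=
  Int.toNat_of_nonneg (Int.emod_nonneg x G.d_posZ.ne')

lemma res_congr {x y : ℤ} (h : x ≡ y [ZMOD (G.d : ℤ)]) : G.res x = G.res y := by
  unfold res
  rw [h]

lemma T_mul (x : ℤ) :
    (G.d : ℤ) * G.T x = G.b (G.res x) * G.D (G.res x) * x + G.a (G.res x) := by
  unfold T
  apply Int.mul_ediv_cancel'
  have h1 := G.dvd (G.res x) (G.res_lt x)
  have h2 : (G.d : ℤ) ∣ x - G.res x := by
    rw [G.res_cast]
    exact Int.dvd_self_sub_emod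
  have h3 : G.b (G.res x) * G.D (G.res x) * x + G.a (G.res x)
      = (G.b (G.res x) * G.D (G.res x) * (G.res x : ℤ) + G.a (G.res x))
        + G.b (G.res x) * G.D (G.res x) * (x - G.res x) := by ring
  rw [h3]
  exact dvd_add h1 (Dvd.dvd.mul_left h2 _)

lemma D_pos {i : ℕ} (hi : i < G.d) : 0 < G.D i := by
  obtain ⟨e, he⟩ := G.Dpow i hi
  exact Nat.pos_of_dvd_of_pos he (pow_pos G.d_pos e)

lemma b_ne {i : ℕ} (hi : i < G.d) : G.b i ≠ 0 := by
  intro h
  have h1 := G.cop i hi
  rw [h, isCoprime_zero_left, Int.isUnit_iff] at h1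
  have := G.two_le
  omega

/-- `gcd (d_j k, d)`. -/
def gg (G : GenMap) (s : State) : ℕ := Nat.gcd (G.D (G.res s.2) * s.1) G.d

lemma gg_pos (s : State) : 0 < G.gg s := Nat.gcd_pos_of_pos_right _ G.d_pos

lemma gg_dvd (s : State) : G.gg s ∣ G.d := Nat.gcd_dvd_right _ _

lemma nextK_mul (s : State) : G.nextK s.1 s.2 * G.gg s = G.D (G.res s.2) * s.1 := by
  unfold nextK gg
  exact Nat.div_mul_cancel (Nat.gcd_dvd_left _ _)

lemma nextK_pos {s : State} (h : 0 < s.1) : 0 < G.nextK s.1 s.2 := by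
  have h1 := G.nextK_mul s
  have h2 : 0 < G.D (G.res s.2) * s.1 := Nat.mul_pos (G.D_pos (G.res_lt _)) h
  rw [← h1] at h2
  exact Nat.pos_of_mul_pos_right h2

lemma step_iff (s t : State) : G.Step M s t ↔ G.Succ M s t := by
  classical
  unfold Step q
  have h1 : (0 : ℝ) < (Nat.gcd (G.D (G.res s.2) * s.1) G.d : ℝ) / G.d := by
    have h2 : (0 : ℝ) < (Nat.gcd (G.D (G.res s.2) * s.1) G.d : ℝ) := by
      exact_mod_cast G.gg_pos s
    have h3 : (0 : ℝ) < (G.d : ℝ) := by exact_mod_cast G.d_pos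
    exact div_pos h2 h3
  split_ifs with h
  · exact ⟨fun _ => h, fun _ => h1⟩
  · exact ⟨fun h' => absurd h' (lt_irrefl _), fun h' => absurd h' h⟩

lemma q_of_succ {s t : State} (h : G.Succ M s t) : G.q M s t = (G.gg s : ℝ) / G.d := by
  classical
  unfold q gg
  rw [if_pos h]

lemma q_of_not_succ {s t : State} (h : ¬ G.Succ M s t) : G.q M s t = 0 := by
  classical
  unfold q
  rw [if_neg h]


/-- `T` on a residue class. -/
lemma T_add {x y : ℤ} {N : ℕ} (hN : G.d ∣ N) (h : x ≡ y [ZMOD (N : ℤ)]) :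
    G.T x ≡ G.T y [ZMOD ((N * G.D (G.res y) / G.d : ℕ) : ℤ)] := by
  obtain ⟨N', rfl⟩ := hN
  have hdpos := G.d_pos
  have hd0 : (G.d : ℤ) ≠ 0 := G.d_posZ.ne'
  have hres : G.res x = G.res y := by
    apply G.res_congr
    apply h.of_dvd
    push_cast
    exact Dvd.intro _ rfl
  have h1 := G.T_mul x
  have h2 := G.T_mul y
  rw [hres] at h1
  have h3 : (G.d : ℤ) * (G.T x - G.T y) = G.b (G.res y) * G.D (G.res y) * (x - y) := by
    linear_combination h1 - h2
  obtain ⟨t, ht⟩ := h.symm.dvd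
  have h4 : G.T x - G.T y = G.b (G.res y) * G.D (G.res y) * (N' * t) := by
    apply mul_left_cancel₀ hd0
    rw [h3, ht]
    push_cast
    ring
  have h5 : G.d * N' * G.D (G.res y) / G.d = N' * G.D (G.res y) := by
    rw [mul_assoc, Nat.mul_div_cancel_left _ hdpos]
  rw [h5]
  apply Int.ModEq.symm
  rw [Int.modEq_iff_dvd, h4]
  refine ⟨G.b (G.res y) * t, ?_⟩
  push_cast
  ring

lemma kseq_pos (x : ℤ) (n : ℕ) : 0 < G.kseq x n := by
  induction n with
  | zero => simp [kseq]
  | succ n ih =>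
    have : 0 < G.nextK (G.kseq x n, G.T^[n] x).1 (G.kseq x n, G.T^[n] x).2 :=
      G.nextK_pos (s := (G.kseq x n, G.T^[n] x)) ih
    simpa [kseq] using this

lemma res_Y (hM : G.d ∣ M) (x : ℤ) (n : ℕ) : G.res (G.Y M x n).2 = G.res (G.T^[n] x) := by
  apply G.res_congr
  unfold Y
  have h1 : (G.T^[n] x) % ((M * G.kseq x n : ℕ) : ℤ)
      ≡ G.T^[n] x [ZMOD ((M * G.kseq x n : ℕ) : ℤ)] := Int.mod_modEq _ _
  apply h1.of_dvd
  exact_mod_cast hM.mul_right _

lemma nextK_congr {k : ℕ} {i j : ℤ} (h : G.res i = G.res j) : G.nextK k i = G.nextK k j := by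
  unfold nextK
  rw [h]

lemma Y_fst_succ (hM : G.d ∣ M) (x : ℤ) (n : ℕ) :
    (G.Y M x (n + 1)).1 = G.nextK (G.Y M x n).1 (G.Y M x n).2 := by
  rw [G.nextK_congr (G.res_Y hM x n)]
  rfl

lemma mod_dvd (hM : G.d ∣ M) (s : State) :
    (M * s.1 * G.D (G.res s.2) / G.d) ∣ M * G.nextK s.1 s.2 := by
  obtain ⟨N', rfl⟩ := hM
  have h5 : G.d * N' * s.1 * G.D (G.res s.2) / G.d = N' * s.1 * G.D (G.res s.2) := by
    rw [mul_assoc, mul_assoc, Nat.mul_div_cancel_left _ G.d_pos, mul_assoc]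
  rw [h5]
  have h6 := G.nextK_mul s
  obtain ⟨c, hc⟩ := G.gg_dvd s
  refine ⟨c, ?_⟩
  calc G.d * N' * G.nextK s.1 s.2 = N' * (G.nextK s.1 s.2 * G.gg s) * c := by
        rw [hc]; ring
    _ = N' * s.1 * G.D (G.res s.2) * c := by rw [h6]; ring

lemma Y_succ (hM : G.d ∣ M) (hM0 : 0 < M) (x : ℤ) (n : ℕ) :
    G.Succ M (G.Y M x n) (G.Y M x (n + 1)) := by
  have hk : 0 < G.kseq x (n + 1) := G.kseq_pos x (n + 1)
  have hpos : (0 : ℤ) < ((M * G.kseq x (n + 1) : ℕ) : ℤ) := by
    exact_mod_cast Nat.mul_pos hM0 hk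
  refine ⟨G.Y_fst_succ hM x n, ?_, ?_, ?_⟩
  · exact Int.emod_nonneg _ hpos.ne'
  · exact Int.emod_lt_of_pos _ hpos
  · have h1 : (G.Y M x (n + 1)).2 ≡ G.T^[n + 1] x [ZMOD ((M * (G.Y M x (n + 1)).1 : ℕ) : ℤ)] :=
      Int.mod_modEq _ _
    have h2 : (G.Y M x n).2 ≡ G.T^[n] x [ZMOD ((M * (G.Y M x n).1 : ℕ) : ℤ)] :=
      Int.mod_modEq _ _
    have h3 := G.T_add (hM.mul_right (G.Y M x n).1) h2.symm
    have h4 : (G.Y M x (n + 1)).2 ≡ G.T^[n + 1] x
        [ZMOD ((M * (G.Y M x n).1 * G.D (G.res (G.Y M x n).2) / G.d : ℕ) : ℤ)] := by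
      apply h1.of_dvd
      rw [Y_fst_succ hM]
      exact_mod_cast G.mod_dvd hM (G.Y M x n)
    refine h4.trans ?_
    rw [Function.iterate_succ_apply']
    exact h3

lemma Y_step (hM : G.d ∣ M) (hM0 : 0 < M) (x : ℤ) (n : ℕ) :
    G.Step M (G.Y M x n) (G.Y M x (n + 1)) :=
  (G.step_iff _ _).2 (G.Y_succ hM hM0 x n)

lemma Y_reach (hM : G.d ∣ M) (hM0 : 0 < M) (x : ℤ) (n l : ℕ) :
    Relation.ReflTransGen (G.Step M) (G.Y M x n) (G.Y M x (n + l)) := by
  induction l with
  | zero => exact Relation.ReflTransGen.refl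
  | succ l ih => exact ih.tail (G.Y_step hM hM0 x (n + l))

lemma Y_mem (hM : G.d ∣ M) (hM0 : 0 < M) (x : ℤ) (n : ℕ) : G.Y M x n ∈ G.states M := by
  have h0 : (0 : ℤ) < ((M * 1 : ℕ) : ℤ) := by simpa using hM0
  refine ⟨x % ((M * 1 : ℕ) : ℤ), Int.emod_nonneg _ h0.ne', ?_, ?_⟩
  · simpa using Int.emod_lt_of_pos x h0
  · have := G.Y_reach hM hM0 x 0 n
    rw [zero_add] at this
    exact this

lemma states_closed {s t : State} (hs : s ∈ G.states M) (h : G.Step M s t) :
    t ∈ G.states M := by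
  obtain ⟨i, h1, h2, h3⟩ := hs
  exact ⟨i, h1, h2, h3.tail h⟩

lemma Y_mem_cls (x : ℤ) (n : ℕ) : G.T^[n] x ∈ cls M (G.Y M x n) :=
  (Int.mod_modEq _ _).symm

/-- When `gcd (d_j k, d) = d` the successor is unique. -/
lemma succ_unique {s t t' : State} (hg : G.gg s = G.d)
    (h : G.Succ M s t) (h' : G.Succ M s t') : t = t' := by
  obtain ⟨h1, h2, h3, h4⟩ := h
  obtain ⟨h1', h2', h3', h4'⟩ := h'
  have e1 : t.1 = t'.1 := h1.trans h1'.symm
  have hmod : M * s.1 * G.D (G.res s.2) / G.d = M * t.1 := by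
    have h6 := G.nextK_mul s
    rw [hg] at h6
    rw [h1, mul_assoc, mul_comm s.1, ← h6, ← mul_assoc, Nat.mul_div_cancel _ G.d_pos]
  have h5 : t.2 ≡ t'.2 [ZMOD ((M * t.1 : ℕ) : ℤ)] := by
    rw [← hmod]
    exact h4.trans h4'.symm
  have h6 : t.2 = t'.2 := by
    have e2 : t.2 % ((M * t.1 : ℕ) : ℤ) = t'.2 % ((M * t.1 : ℕ) : ℤ) := h5
    rw [Int.emod_eq_of_lt h2 h3, Int.emod_eq_of_lt h2' (by rw [e1]; exact h3')] at e2
    exact e2
  exact Prod.ext e1 h6

/-! ### Bounded trajectories are not divergent -/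

lemma not_divergent_of_bounded {x : ℤ} {n₀ : ℕ} {C : ℝ}
    (h : ∀ n ≥ n₀, |((G.T^[n] x : ℤ) : ℝ)| ≤ C) : ¬ G.Divergent x := by
  intro hdiv
  apply hdiv
  have hfin : (Set.Icc (-(⌈C⌉)) ⌈C⌉ : Set ℤ).Finite := Set.finite_Icc _ _
  have hmem : ∀ n : ℕ, G.T^[n₀ + n] x ∈ Set.Icc (-(⌈C⌉)) ⌈C⌉ := by
    intro n
    have h1 := abs_le.mp (h (n₀ + n) (Nat.le_add_right _ _))
    have h2 : C ≤ ⌈C⌉ := Int.le_ceil C
    constructor
    · have : (-(⌈C⌉ : ℝ)) ≤ ((G.T^[n₀ + n] x : ℤ) : ℝ) := by linarith [h1.1]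
      exact_mod_cast this
    · have : ((G.T^[n₀ + n] x : ℤ) : ℝ) ≤ (⌈C⌉ : ℝ) := by linarith [h1.2]
      exact_mod_cast this
  have : ∃ m n : ℕ, m ≠ n ∧ G.T^[n₀ + m] x = G.T^[n₀ + n] x := by
    by_contra hcon
    push Not at hcon
    have hinj : Function.Injective (fun n : ℕ => G.T^[n₀ + n] x) := by
      intro m n hmn
      by_contra hne
      exact hcon m n hne hmn
    have := Set.infinite_range_of_injective hinj
    apply this
    apply hfin.subset
    rintro _ ⟨n, rfl⟩
    exact hmem n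
  obtain ⟨m, n, hne, heq⟩ := this
  rcases lt_or_gt_of_ne hne with hlt | hlt
  · refine ⟨n₀ + m, n - m, by omega, ?_⟩
    rw [show n₀ + m + (n - m) = n₀ + n by omega]
    exact heq.symm
  · refine ⟨n₀ + n, m - n, by omega, ?_⟩
    rw [show n₀ + n + (m - n) = n₀ + m by omega]
    exact heq

/-! ### States visited infinitely often -/

/-- The states visited infinitely often. -/
def Inf (G : GenMap) (M : ℕ) (x : ℤ) : Set State := {s | ∃ᶠ n in atTop, G.Y M x n = s}

lemma exists_ge_of_mem_Inf {x : ℤ} {s : State} (hs : s ∈ Inf G M x) (n : ℕ) :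
    ∃ n' ≥ n, G.Y M x n' = s := by
  have h : ∃ᶠ n in atTop, G.Y M x n = s := hs
  obtain ⟨n', h1, h2⟩ := (Filter.frequently_atTop.mp h) n
  exact ⟨n', h1, h2⟩

lemma Inf_subset (hM : G.d ∣ M) (hM0 : 0 < M) (x : ℤ) : Inf G M x ⊆ G.states M := by
  intro s hs
  obtain ⟨n, -, rfl⟩ := exists_ge_of_mem_Inf hs 0
  exact G.Y_mem hM hM0 x n

lemma eventually_mem_Inf (hM : G.d ∣ M) (hM0 : 0 < M) (hfin : (G.states M).Finite) (x : ℤ) :
    ∃ n₀, ∀ n ≥ n₀, G.Y M x n ∈ Inf G M x := by
  have h1 : ∀ s ∈ G.states M \ Inf G M x, ∀ᶠ n in atTop, G.Y M x n ≠ s := by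
    intro s hs
    have h2 : ¬ ∃ᶠ n in atTop, G.Y M x n = s := hs.2
    exact Filter.not_frequently.mp h2
  have h2 := (Filter.eventually_all_finite (hfin.subset Set.sdiff_subset)).mpr h1
  obtain ⟨n₀, hn₀⟩ := Filter.eventually_atTop.mp h2
  refine ⟨n₀, fun n hn => ?_⟩
  by_contra hcon
  exact hn₀ n hn _ ⟨G.Y_mem hM hM0 x n, hcon⟩ rfl

lemma Inf_reach (hM : G.d ∣ M) (hM0 : 0 < M) {x : ℤ} {s t : State}
    (hs : s ∈ Inf G M x) (ht : t ∈ Inf G M x) : Relation.ReflTransGen (G.Step M) s t := by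
  obtain ⟨n, -, rfl⟩ := exists_ge_of_mem_Inf hs 0
  obtain ⟨n', h1, rfl⟩ := exists_ge_of_mem_Inf ht n
  obtain ⟨l, rfl⟩ := Nat.exists_eq_add_of_le h1
  exact G.Y_reach hM hM0 x n l

/-- Two successors in `Inf` of a non-branching state of `Inf` agree. -/
lemma eq_of_not_branching (hM : G.d ∣ M) (hM0 : 0 < M) {x : ℤ} {s t t' : State}
    (hs : s ∈ Inf G M x) (ht : t ∈ Inf G M x) (ht' : t' ∈ Inf G M x)
    (h : G.Step M s t) (h' : G.Step M s t') (hb : ¬ G.Branching M s) : t = t' := by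
  by_contra hne
  exact hb ⟨t, t', hne, h, h', Inf_reach hM hM0 ht hs, Inf_reach hM hM0 ht' hs⟩

/-- If some state of `Inf` is branching, then each closed walk inside `Inf` passes through a
branching state. -/
lemma closed_walk_branching (hM : G.d ∣ M) (hM0 : 0 < M) (hfin : (G.states M).Finite) {x : ℤ}
    {s₀ : State} (hs₀ : s₀ ∈ Inf G M x) (hb₀ : G.Branching M s₀)
    {n : ℕ} (hn : 0 < n) {g : ℕ → State} (hstep : ∀ i < n, G.Step M (g i) (g (i + 1)))
    (hclosed : g n = g 0) (hmem : ∀ i ≤ n, g i ∈ Inf G M x) :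
    ∃ i < n, G.Branching M (g i) := by
  by_contra hcon
  push Not at hcon
  obtain ⟨n₀, hn₀⟩ := eventually_mem_Inf hM hM0 hfin x
  obtain ⟨n₁, hn₁, hY⟩ := exists_ge_of_mem_Inf (hmem 0 (Nat.zero_le _)) n₀
  have key : ∀ t : ℕ, G.Y M x (n₁ + t) = g (t % n) := by
    intro t
    induction t with
    | zero => simpa using hY
    | succ t ih =>
      have hlt : t % n < n := Nat.mod_lt _ hn
      have h1 : G.Step M (g (t % n)) (G.Y M x (n₁ + (t + 1))) := by
        rw [← ih]
        exact G.Y_step hM hM0 x (n₁ + t)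
      have h2 := hstep (t % n) hlt
      have h3 : G.Y M x (n₁ + (t + 1)) = g (t % n + 1) :=
        eq_of_not_branching hM hM0 (hmem _ hlt.le) (hn₀ _ (by omega)) (hmem _ hlt) h1 h2
          (hcon _ hlt)
      rw [h3]
      by_cases hc : t % n + 1 = n
      · rw [hc, hclosed, ← Nat.mod_add_mod t n 1, hc, Nat.mod_self]
      · have e : (t % n + 1) % n = t % n + 1 := Nat.mod_eq_of_lt (by omega)
        rw [← Nat.mod_add_mod t n 1, e]
  obtain ⟨n₂, h₂, hY₂⟩ := exists_ge_of_mem_Inf hs₀ n₁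
  obtain ⟨t, rfl⟩ := Nat.exists_eq_add_of_le h₂
  rw [key t] at hY₂
  apply hcon (t % n) (Nat.mod_lt _ hn)
  rw [hY₂]
  exact hb₀

/-! ### Multipliers -/

lemma mult_nonneg (s : State) : 0 ≤ G.mult s := by
  unfold mult
  positivity

lemma mult_pos (s : State) : 0 < G.mult s := by
  have hd : (0 : ℝ) < G.d := by exact_mod_cast G.d_pos
  have h1 : G.b (G.res s.2) ≠ 0 := G.b_ne (G.res_lt _)
  have h2 : 0 < G.D (G.res s.2) := G.D_pos (G.res_lt _)
  have h3 : (G.b (G.res s.2) * G.D (G.res s.2) : ℤ) ≠ 0 := by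
    apply mul_ne_zero h1
    exact_mod_cast h2.ne'
  unfold mult
  have h4 : (0 : ℝ) < |((G.b (G.res s.2) * G.D (G.res s.2) : ℤ) : ℝ)| :=
    abs_pos.mpr (by exact_mod_cast h3)
  exact div_pos h4 hd

/-- A crude bound for all multipliers. -/
noncomputable def wsum (G : GenMap) : ℝ :=
  ∑ i ∈ Finset.range G.d, |((G.b i * G.D i : ℤ) : ℝ)|

/-- A crude bound for all translations. -/
noncomputable def asum (G : GenMap) : ℝ := ∑ i ∈ Finset.range G.d, |((G.a i : ℤ) : ℝ)|

lemma mult_le_wsum (s : State) : G.mult s ≤ G.wsum := by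
  have hd : (1 : ℝ) ≤ G.d := by exact_mod_cast G.d_pos
  unfold mult wsum
  calc |((G.b (G.res s.2) * G.D (G.res s.2) : ℤ) : ℝ)| / G.d
      ≤ |((G.b (G.res s.2) * G.D (G.res s.2) : ℤ) : ℝ)| := div_le_self (abs_nonneg _) hd
    _ ≤ _ := Finset.single_le_sum (f := fun i => |((G.b i * G.D i : ℤ) : ℝ)|)
        (fun i _ => abs_nonneg _) (Finset.mem_range.mpr (G.res_lt s.2))

lemma abs_T_le (hM : G.d ∣ M) (x : ℤ) (n : ℕ) :
    |((G.T^[n + 1] x : ℤ) : ℝ)| ≤ G.mult (G.Y M x n) * |((G.T^[n] x : ℤ) : ℝ)| + G.asum := by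
  have hd : (0 : ℝ) < G.d := by exact_mod_cast G.d_pos
  have hd1 : (1 : ℝ) ≤ G.d := by exact_mod_cast G.d_pos
  have h1 := G.T_mul (G.T^[n] x)
  rw [← Function.iterate_succ_apply' G.T n x] at h1
  have h2 : (G.d : ℝ) * ((G.T^[n + 1] x : ℤ) : ℝ)
      = ((G.b (G.res (G.T^[n] x)) * G.D (G.res (G.T^[n] x)) : ℤ) : ℝ) * ((G.T^[n] x : ℤ) : ℝ)
        + ((G.a (G.res (G.T^[n] x)) : ℤ) : ℝ) := by
    exact_mod_cast h1
  have h3 : |((G.a (G.res (G.T^[n] x)) : ℤ) : ℝ)| ≤ G.asum :=
    Finset.single_le_sum (f := fun i => |((G.a i : ℤ) : ℝ)|)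
        (fun i _ => abs_nonneg _) (Finset.mem_range.mpr (G.res_lt _))
  have h4 : (G.d : ℝ) * |((G.T^[n + 1] x : ℤ) : ℝ)|
      ≤ |((G.b (G.res (G.T^[n] x)) * G.D (G.res (G.T^[n] x)) : ℤ) : ℝ)|
        * |((G.T^[n] x : ℤ) : ℝ)| + G.asum := by
    calc (G.d : ℝ) * |((G.T^[n + 1] x : ℤ) : ℝ)| = |(G.d : ℝ) * ((G.T^[n + 1] x : ℤ) : ℝ)| := by
          rw [abs_mul, abs_of_pos hd]
      _ ≤ _ := by
          rw [h2]
          refine (abs_add_le _ _).trans ?_
          rw [abs_mul]
          linarith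
  have h5 : G.mult (G.Y M x n)
      = |((G.b (G.res (G.T^[n] x)) * G.D (G.res (G.T^[n] x)) : ℤ) : ℝ)| / G.d := by
    unfold mult
    rw [G.res_Y hM]
  have h0 : 0 ≤ G.asum := Finset.sum_nonneg fun i _ => abs_nonneg _
  rw [h5]
  have h6 : |((G.T^[n + 1] x : ℤ) : ℝ)| = ((G.d : ℝ) * |((G.T^[n + 1] x : ℤ) : ℝ)|) / G.d := by
    field_simp
  rw [h6]
  calc ((G.d : ℝ) * |((G.T^[n + 1] x : ℤ) : ℝ)|) / G.d
      ≤ (|((G.b (G.res (G.T^[n] x)) * G.D (G.res (G.T^[n] x)) : ℤ) : ℝ)|
        * |((G.T^[n] x : ℤ) : ℝ)| + G.asum) / G.d := div_le_div_of_nonneg_right h4 hd.le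
    _ = |((G.b (G.res (G.T^[n] x)) * G.D (G.res (G.T^[n] x)) : ℤ) : ℝ)| / G.d
        * |((G.T^[n] x : ℤ) : ℝ)| + G.asum / G.d := by ring
    _ ≤ _ := by
        have := div_le_self h0 hd1
        linarith

/-- Products of multipliers less than `1` are at most `1 - d ^ (-n)`. -/
lemma prod_mult_le {n : ℕ} {g : ℕ → State} (h : ∏ i ∈ Finset.range n, G.mult (g i) < 1) :
    ∏ i ∈ Finset.range n, G.mult (g i) ≤ 1 - 1 / (G.d : ℝ) ^ n := by
  have hd : (0 : ℝ) < G.d := by exact_mod_cast G.d_pos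
  have hdn : (0 : ℝ) < (G.d : ℝ) ^ n := by positivity
  set A : ℕ := ∏ i ∈ Finset.range n, (G.b (G.res (g i).2) * G.D (G.res (g i).2)).natAbs with hA
  have h1 : ∏ i ∈ Finset.range n, G.mult (g i) = (A : ℝ) / (G.d : ℝ) ^ n := by
    unfold mult
    rw [Finset.prod_div_distrib, Finset.prod_const, Finset.card_range, hA]
    congr 1
    push_cast
    apply Finset.prod_congr rfl
    intro i _
    rw [Nat.cast_natAbs]
    push_cast
    rfl
  rw [h1] at h ⊢
  rw [div_lt_one hdn] at h
  have h2 : A + 1 ≤ G.d ^ n := by exact_mod_cast h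
  have h3 : (A : ℝ) + 1 ≤ (G.d : ℝ) ^ n := by exact_mod_cast h2
  rw [div_le_iff₀ hdn, sub_mul, one_mul, one_div, inv_mul_cancel₀ hdn.ne']
  linarith

/-! ### The contracting case -/

/-- The number `N` of states visited infinitely often, at least `1`. -/
lemma pigeon {I : Set State} (hI : I.Finite) {n : ℕ} {g : ℕ → State}
    (hg : ∀ i ≤ n, g i ∈ I) (hn : I.ncard ≤ n) :
    ∃ i j : ℕ, i < j ∧ j ≤ I.ncard ∧ g i = g j := by
  classical
  have h1 : (hI.toFinset).card < (Finset.range (I.ncard + 1)).card := by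
    rw [Finset.card_range, ← Set.ncard_eq_toFinset_card I hI]
    omega
  have h2 : Set.MapsTo g (Finset.range (I.ncard + 1) : Set ℕ) (hI.toFinset : Set State) := by
    intro i hi
    rw [Finset.mem_coe, Finset.mem_range] at hi
    rw [Finset.mem_coe, Set.Finite.mem_toFinset]
    exact hg i (by omega)
  obtain ⟨i, hi, j, hj, hne, heq⟩ := Finset.exists_ne_map_eq_of_card_lt_of_maps_to h1 h2
  rw [Finset.mem_range] at hi hj
  rcases lt_or_gt_of_ne hne with h | h
  · exact ⟨i, j, h, by omega, heq⟩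
  · exact ⟨j, i, h, by omega, heq.symm⟩

/-- Removing a closed piece from a walk. -/
def cut (g : ℕ → State) (i j : ℕ) (t : ℕ) : State := if t < i then g t else g (t + (j - i))

lemma prod_cut (w : State → ℝ) (g : ℕ → State) {i j n : ℕ} (hij : i < j) (hjn : j ≤ n) :
    ∏ t ∈ Finset.range n, w (g t)
      = (∏ t ∈ Finset.range (n - (j - i)), w (cut g i j t)) *
        ∏ t ∈ Finset.range (j - i), w (g (i + t)) := by
  have e1 : n = i + ((j - i) + (n - j)) := by omega
  have e2 : n - (j - i) = i + (n - j) := by omega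
  have h1 : ∏ t ∈ Finset.range n, w (g t)
      = (∏ t ∈ Finset.range i, w (g t)) * ((∏ t ∈ Finset.range (j - i), w (g (i + t))) *
        ∏ t ∈ Finset.range (n - j), w (g (i + ((j - i) + t)))) := by
    conv_lhs => rw [e1]
    rw [Finset.prod_range_add, Finset.prod_range_add]
  have h2 : ∏ t ∈ Finset.range (n - (j - i)), w (cut g i j t)
      = (∏ t ∈ Finset.range i, w (g t)) *
        ∏ t ∈ Finset.range (n - j), w (g (i + ((j - i) + t))) := by
    rw [e2, Finset.prod_range_add]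
    congr 1
    · apply Finset.prod_congr rfl
      intro t ht
      rw [Finset.mem_range] at ht
      simp [cut, ht]
    · apply Finset.prod_congr rfl
      intro t _
      unfold cut
      rw [if_neg (by omega)]
      congr 2
      omega
  rw [h1, h2]
  ring

/-- Walks inside a finite set in which all short closed walks have weight at most `1` have
bounded weight. -/
lemma walk_bound {R : State → State → Prop} {I : Set State} (hI : I.Finite) (w : State → ℝ)
    (hw0 : ∀ s, 0 ≤ w s) {W : ℝ} (hW1 : 1 ≤ W) (hW : ∀ s, w s ≤ W)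
    (hclosed : ∀ (n : ℕ) (g : ℕ → State), 0 < n → n ≤ I.ncard →
      (∀ i < n, R (g i) (g (i + 1))) → g n = g 0 → (∀ i ≤ n, g i ∈ I) →
      ∏ i ∈ Finset.range n, w (g i) ≤ 1) :
    ∀ (n : ℕ) (g : ℕ → State), (∀ i < n, R (g i) (g (i + 1))) → (∀ i ≤ n, g i ∈ I) →
      ∏ i ∈ Finset.range n, w (g i) ≤ W ^ I.ncard := by
  intro n
  induction n using Nat.strong_induction_on with
  | _ n ih =>
    intro g hstep hmem
    rcases le_total n I.ncard with hn | hn
    · calc ∏ i ∈ Finset.range n, w (g i) ≤ ∏ _i ∈ Finset.range n, W :=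
            Finset.prod_le_prod (fun i _ => hw0 _) (fun i _ => hW _)
        _ = W ^ n := by rw [Finset.prod_const, Finset.card_range]
        _ ≤ W ^ I.ncard := pow_le_pow_right₀ hW1 hn
    · obtain ⟨i, j, hij, hjN, heq⟩ := pigeon hI hmem hn
      have hjn : j ≤ n := hjN.trans hn
      rw [prod_cut w g hij hjn]
      have h1 : ∏ t ∈ Finset.range (j - i), w (g (i + t)) ≤ 1 := by
        apply hclosed (j - i) (fun t => g (i + t)) (by omega) (by omega)
        · intro t ht
          have := hstep (i + t) (by omega)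
          simpa [add_assoc] using this
        · simp only [add_zero]
          rw [show i + (j - i) = j by omega]
          exact heq.symm
        · intro t ht
          exact hmem _ (by omega)
      have h2 : ∏ t ∈ Finset.range (n - (j - i)), w (cut g i j t) ≤ W ^ I.ncard := by
        apply ih (n - (j - i)) (by omega)
        · intro t ht
          unfold cut
          by_cases h3 : t + 1 < i
          · rw [if_pos (by omega), if_pos h3]
            exact hstep t (by omega)
          · by_cases h4 : t < i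
            · have h5 : t + 1 = i := by omega
              rw [if_pos h4, if_neg h3, h5, show i + (j - i) = j by omega, ← heq, ← h5]
              exact hstep t (by omega)
            · rw [if_neg h4, if_neg h3]
              have := hstep (t + (j - i)) (by omega)
              rw [show t + 1 + (j - i) = t + (j - i) + 1 by omega]
              exact this
        · intro t ht
          unfold cut
          split_ifs
          · exact hmem _ (by omega)
          · exact hmem _ (by omega)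
      have h3 : 0 ≤ ∏ t ∈ Finset.range (n - (j - i)), w (cut g i j t) :=
        Finset.prod_nonneg fun _ _ => hw0 _
      calc (∏ t ∈ Finset.range (n - (j - i)), w (cut g i j t)) *
            ∏ t ∈ Finset.range (j - i), w (g (i + t))
          ≤ (∏ t ∈ Finset.range (n - (j - i)), w (cut g i j t)) * 1 :=
            mul_le_mul_of_nonneg_left h1 h3
        _ ≤ W ^ I.ncard := by rw [mul_one]; exact h2

/-- The weights of the walks inside `I` starting at `s`. -/
def weights (R : State → State → Prop) (I : Set State) (w : State → ℝ) (s : State) : Set ℝ :=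
  {r | ∃ (n : ℕ) (g : ℕ → State), g 0 = s ∧ (∀ i < n, R (g i) (g (i + 1))) ∧
    (∀ i ≤ n, g i ∈ I) ∧ r = ∏ i ∈ Finset.range n, w (g i)}

/-- Existence of a potential. -/
lemma exists_potential {R : State → State → Prop} {I : Set State} (hI : I.Finite)
    (w : State → ℝ) (hw0 : ∀ s, 0 < w s) {W : ℝ} (hW1 : 1 ≤ W) (hW : ∀ s, w s ≤ W)
    (hclosed : ∀ (n : ℕ) (g : ℕ → State), 0 < n → n ≤ I.ncard →
      (∀ i < n, R (g i) (g (i + 1))) → g n = g 0 → (∀ i ≤ n, g i ∈ I) →
      ∏ i ∈ Finset.range n, w (g i) ≤ 1) :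
    ∃ f : State → ℝ, (∀ s ∈ I, 1 ≤ f s) ∧ (∀ s ∈ I, f s ≤ W ^ I.ncard) ∧
      ∀ s ∈ I, ∀ t ∈ I, R s t → w s * f t ≤ f s := by
  have hb := walk_bound hI w (fun s => (hw0 s).le) hW1 hW hclosed
  have hbdd : ∀ s, BddAbove (weights R I w s) := by
    intro s
    refine ⟨W ^ I.ncard, ?_⟩
    rintro r ⟨n, g, -, h1, h2, rfl⟩
    exact hb n g h1 h2
  have hone : ∀ s ∈ I, (1 : ℝ) ∈ weights R I w s := by
    intro s hs
    exact ⟨0, fun _ => s, rfl, fun i hi => absurd hi (Nat.not_lt_zero _), fun _ _ => hs, by simp⟩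
  refine ⟨fun s => sSup (weights R I w s), ?_, ?_, ?_⟩
  · intro s hs
    exact le_csSup (hbdd s) (hone s hs)
  · intro s hs
    apply csSup_le ⟨1, hone s hs⟩
    rintro r ⟨n, g, -, h1, h2, rfl⟩
    exact hb n g h1 h2
  · intro s hs t ht hst
    have h1 : sSup (weights R I w t) ≤ sSup (weights R I w s) / w s := by
      apply csSup_le ⟨1, hone t ht⟩
      rintro r ⟨n, g, h0, h1, h2, rfl⟩
      rw [le_div_iff₀ (hw0 s)]
      apply le_csSup (hbdd s)
      refine ⟨n + 1, fun i => if i = 0 then s else g (i - 1), by simp, ?_, ?_, ?_⟩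
      · intro i hi
        rcases Nat.eq_zero_or_pos i with rfl | hi0
        · simpa [h0] using hst
        · have h3 := h1 (i - 1) (by omega)
          rw [show i - 1 + 1 = i by omega] at h3
          have h4 : i ≠ 0 := by omega
          simpa [h4] using h3
      · intro i hi
        rcases Nat.eq_zero_or_pos i with rfl | hi0
        · simpa using hs
        · have h4 : i ≠ 0 := by omega
          simpa [h4] using h2 (i - 1) (by omega)
      · rw [Finset.prod_range_succ']
        simp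
    rw [le_div_iff₀ (hw0 s)] at h1
    simpa [mul_comm] using h1

/-- If a branching state is visited infinitely often, then the trajectory is bounded. -/
lemma bounded_of_branching (hM : G.d ∣ M) (hM0 : 0 < M) (hfin : (G.states M).Finite)
    (H : G.BranchingLoopsContract M) {x : ℤ} {s₀ : State} (hs₀ : s₀ ∈ Inf G M x)
    (hb₀ : G.Branching M s₀) :
    ∃ (n₀ : ℕ) (C : ℝ), ∀ n ≥ n₀, |((G.T^[n] x : ℤ) : ℝ)| ≤ C := by
  have hd1 : (1 : ℝ) ≤ G.d := by exact_mod_cast G.d_pos
  have hd2 : (2 : ℝ) ≤ G.d := by exact_mod_cast G.two_le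
  set I := Inf G M x with hIdef
  have hIfin : I.Finite := hfin.subset (Inf_subset hM hM0 x)
  set N := I.ncard with hN
  have hNpos : 0 < N := (Set.ncard_pos hIfin).mpr ⟨s₀, hs₀⟩
  have hNR : (1 : ℝ) ≤ N := by exact_mod_cast hNpos
  have hdN : (1 : ℝ) < (G.d : ℝ) ^ N := one_lt_pow₀ (by linarith) hNpos.ne'
  set δ : ℝ := 1 / (G.d : ℝ) ^ N with hδ
  have hδ0 : 0 < δ := by positivity
  have hδ1 : δ < 1 := by rw [hδ, div_lt_one (by linarith)]; exact hdN
  set μ : ℝ := 1 - δ / N with hμ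
  have hδN : δ / N ≤ δ := div_le_self hδ0.le hNR
  have hμ0 : 0 < μ := by rw [hμ]; linarith
  have hμ1 : μ < 1 := by
    rw [hμ]
    have : 0 < δ / N := by positivity
    linarith
  have hμN : 1 - δ ≤ μ ^ N := by
    have h1 := one_add_mul_le_pow (a := -(δ / N)) (by linarith) N
    have h2 : 1 + (N : ℝ) * (-(δ / N)) = 1 - δ := by
      field_simp
      ring
    rw [h2] at h1
    rw [hμ]
    simpa [sub_eq_add_neg] using h1
  -- the normalised weight
  set w : State → ℝ := fun s => G.mult s / μ with hw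
  have hw0 : ∀ s, 0 < w s := fun s => div_pos (mult_pos s) hμ0
  set W : ℝ := 1 + G.wsum / μ with hWdef
  have hws : 0 ≤ G.wsum := Finset.sum_nonneg fun i _ => abs_nonneg _
  have hW1 : 1 ≤ W := by
    rw [hWdef]
    have : 0 ≤ G.wsum / μ := div_nonneg hws hμ0.le
    linarith
  have hW : ∀ s, w s ≤ W := by
    intro s
    have h1 : w s ≤ G.wsum / μ := div_le_div_of_nonneg_right (mult_le_wsum s) hμ0.le
    rw [hWdef]
    linarith
  have hclosed : ∀ (n : ℕ) (g : ℕ → State), 0 < n → n ≤ I.ncard →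
      (∀ i < n, G.Step M (g i) (g (i + 1))) → g n = g 0 → (∀ i ≤ n, g i ∈ I) →
      ∏ i ∈ Finset.range n, w (g i) ≤ 1 := by
    intro n g hn hnN hstep hcl hmem
    obtain ⟨i, hi, hbr⟩ := closed_walk_branching hM hM0 hfin hs₀ hb₀ hn hstep hcl hmem
    have h1 := H n g hstep hcl (Inf_subset hM hM0 x (hmem 0 (Nat.zero_le _))) ⟨i, hi, hbr⟩
    have h2 := prod_mult_le h1
    have h3 : ∏ i ∈ Finset.range n, w (g i) = (∏ i ∈ Finset.range n, G.mult (g i)) / μ ^ n := by
      rw [hw, Finset.prod_div_distrib, Finset.prod_const, Finset.card_range]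
    rw [h3, div_le_one (by positivity)]
    calc ∏ i ∈ Finset.range n, G.mult (g i) ≤ 1 - 1 / (G.d : ℝ) ^ n := h2
      _ ≤ 1 - δ := by
          have h4 : δ ≤ 1 / (G.d : ℝ) ^ n :=
            one_div_le_one_div_of_le (by positivity) (pow_le_pow_right₀ hd1 hnN)
          linarith
      _ ≤ μ ^ N := hμN
      _ ≤ μ ^ n := pow_le_pow_of_le_one hμ0.le hμ1.le hnN
  obtain ⟨f, hf1, hfW, hf⟩ := exists_potential hIfin w hw0 hW1 hW hclosed
  obtain ⟨n₀, hn₀⟩ := eventually_mem_Inf hM hM0 hfin x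
  set c : ℝ := G.asum * W ^ I.ncard with hc
  have has : 0 ≤ G.asum := Finset.sum_nonneg fun i _ => abs_nonneg _
  have hWN : 0 < W ^ I.ncard := by positivity
  have hc0 : 0 ≤ c := mul_nonneg has hWN.le
  -- the potential decreases
  have hrec : ∀ n ≥ n₀, |((G.T^[n + 1] x : ℤ) : ℝ)| * f (G.Y M x (n + 1))
      ≤ μ * (|((G.T^[n] x : ℤ) : ℝ)| * f (G.Y M x n)) + c := by
    intro n hn
    have hs := hn₀ n hn
    have ht := hn₀ (n + 1) (by omega)
    have h1 := abs_T_le hM x n
    have h2 := hf _ hs _ ht (G.Y_step hM hM0 x n)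
    have h3 : G.mult (G.Y M x n) = μ * w (G.Y M x n) := by
      rw [hw]
      field_simp
    have hft : 0 ≤ f (G.Y M x (n + 1)) := by linarith [hf1 _ ht]
    calc |((G.T^[n + 1] x : ℤ) : ℝ)| * f (G.Y M x (n + 1))
        ≤ (G.mult (G.Y M x n) * |((G.T^[n] x : ℤ) : ℝ)| + G.asum) * f (G.Y M x (n + 1)) :=
          mul_le_mul_of_nonneg_right h1 hft
      _ = μ * |((G.T^[n] x : ℤ) : ℝ)| * (w (G.Y M x n) * f (G.Y M x (n + 1)))
          + G.asum * f (G.Y M x (n + 1)) := by rw [h3]; ring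
      _ ≤ μ * |((G.T^[n] x : ℤ) : ℝ)| * f (G.Y M x n) + G.asum * W ^ I.ncard := by
          have h5 : 0 ≤ μ * |((G.T^[n] x : ℤ) : ℝ)| := by positivity
          have h6 := mul_le_mul_of_nonneg_left h2 h5
          have h7 := mul_le_mul_of_nonneg_left (hfW _ ht) has
          linarith
      _ = μ * (|((G.T^[n] x : ℤ) : ℝ)| * f (G.Y M x n)) + c := by rw [hc]; ring
  set C : ℝ := |((G.T^[n₀] x : ℤ) : ℝ)| * f (G.Y M x n₀) + c / (1 - μ) with hC
  have hbound : ∀ k : ℕ, |((G.T^[n₀ + k] x : ℤ) : ℝ)| * f (G.Y M x (n₀ + k)) ≤ C := by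
    intro k
    have hk0 : 0 ≤ |((G.T^[n₀] x : ℤ) : ℝ)| * f (G.Y M x n₀) := by
      have := hf1 _ (hn₀ n₀ le_rfl)
      have h2 : 0 ≤ |((G.T^[n₀] x : ℤ) : ℝ)| := abs_nonneg _
      nlinarith
    have h1μ : 0 < 1 - μ := by linarith
    induction k with
    | zero =>
      rw [hC, add_zero]
      have : 0 ≤ c / (1 - μ) := by positivity
      linarith
    | succ k ih =>
      have h1 := hrec (n₀ + k) (Nat.le_add_right _ _)
      rw [show n₀ + (k + 1) = n₀ + k + 1 by ring]
      have h2 : μ * C + c ≤ C := by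
        have h3 : c = (1 - μ) * (c / (1 - μ)) := by field_simp
        have h4 : (1 - μ) * C = (1 - μ) * (|((G.T^[n₀] x : ℤ) : ℝ)| * f (G.Y M x n₀)) + c := by
          rw [hC, mul_add, ← h3]
        have h5 : 0 ≤ (1 - μ) * (|((G.T^[n₀] x : ℤ) : ℝ)| * f (G.Y M x n₀)) :=
          mul_nonneg h1μ.le hk0
        linarith
      have h3 := mul_le_mul_of_nonneg_left ih hμ0.le
      linarith
  refine ⟨n₀, C, ?_⟩
  intro n hn
  obtain ⟨k, rfl⟩ := Nat.exists_eq_add_of_le hn
  have h1 := hbound k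
  have h2 := hf1 _ (hn₀ (n₀ + k) hn)
  have h3 : 0 ≤ |((G.T^[n₀ + k] x : ℤ) : ℝ)| := abs_nonneg _
  nlinarith

/-! ### The eventually periodic case -/

lemma periodic_data (hM : G.d ∣ M) (hM0 : 0 < M) (hfin : (G.states M).Finite) {x : ℤ}
    (hnb : ∀ s ∈ Inf G M x, ¬ G.Branching M s) :
    ∃ n₀ L : ℕ, 0 < L ∧ (∀ i, G.Y M x (n₀ + (i + L)) = G.Y M x (n₀ + i)) ∧
      ∀ i < L, ∀ j < L, G.Y M x (n₀ + i) = G.Y M x (n₀ + j) → i = j := by
  classical
  obtain ⟨n₀, hn₀⟩ := eventually_mem_Inf hM hM0 hfin x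
  have hdet : ∀ i j : ℕ, G.Y M x (n₀ + i) = G.Y M x (n₀ + j) →
      ∀ t, G.Y M x (n₀ + (i + t)) = G.Y M x (n₀ + (j + t)) := by
    intro i j hij t
    induction t with
    | zero => simpa using hij
    | succ t ih =>
      have h1 := G.Y_step hM hM0 x (n₀ + (i + t))
      have h2 := G.Y_step hM hM0 x (n₀ + (j + t))
      rw [← ih] at h2
      have h3 := eq_of_not_branching hM hM0 (hn₀ (n₀ + (i + t)) (Nat.le_add_right _ _))
        (hn₀ _ (by omega)) (hn₀ _ (by omega)) h1 h2
        (hnb _ (hn₀ (n₀ + (i + t)) (Nat.le_add_right _ _)))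
      exact h3
  have hex : ∃ L : ℕ, 0 < L ∧ G.Y M x (n₀ + L) = G.Y M x n₀ := by
    obtain ⟨n', h1, h2⟩ := exists_ge_of_mem_Inf (hn₀ n₀ le_rfl) (n₀ + 1)
    refine ⟨n' - n₀, by omega, ?_⟩
    rw [show n₀ + (n' - n₀) = n' by omega]
    exact h2
  set L := Nat.find hex with hL
  obtain ⟨hLpos, hLper⟩ := Nat.find_spec hex
  rw [← hL] at hLpos hLper
  have hmin : ∀ m < L, ¬ (0 < m ∧ G.Y M x (n₀ + m) = G.Y M x n₀) := fun m hm =>
    Nat.find_min hex hm
  have hper : ∀ i, G.Y M x (n₀ + (i + L)) = G.Y M x (n₀ + i) := by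
    intro i
    have := hdet L 0 (by simpa using hLper) i
    rw [zero_add] at this
    rw [add_comm i L]
    exact this
  refine ⟨n₀, L, hLpos, hper, ?_⟩
  have hinj : ∀ i j : ℕ, i < j → j < L → G.Y M x (n₀ + i) = G.Y M x (n₀ + j) → False := by
    intro i j hij hj heq
    have h1 := hdet i j heq (L - j)
    rw [show j + (L - j) = L by omega, hLper] at h1
    exact hmin (i + (L - j)) (by omega) ⟨by omega, h1⟩
  intro i hi j hj heq
  rcases lt_trichotomy i j with h | h | h
  · exact (hinj i j h hj heq).elim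
  · exact h
  · exact (hinj j i h hi heq.symm).elim

lemma gg_eq_of_periodic (hM : G.d ∣ M) {x : ℤ} (hdiv : G.Divergent x)
    {n₀ L : ℕ} (hL : 0 < L) (hper : ∀ i, G.Y M x (n₀ + (i + L)) = G.Y M x (n₀ + i)) (i : ℕ) :
    G.gg (G.Y M x (n₀ + i)) = G.d := by
  by_contra hne
  -- the differences over one period
  set z : ℕ → ℤ := fun n => G.T^[n₀ + (n + L)] x - G.T^[n₀ + n] x with hz
  set β : ℕ → ℤ := fun n => G.b (G.res (G.Y M x (n₀ + n)).2) with hβ
  set Δ : ℕ → ℕ := fun n => G.D (G.res (G.Y M x (n₀ + n)).2) with hΔ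
  set γ : ℕ → ℕ := fun n => G.gg (G.Y M x (n₀ + n)) with hγ
  set κ : ℕ → ℕ := fun n => (G.Y M x (n₀ + n)).1 with hκ
  have hd0 : (G.d : ℤ) ≠ 0 := G.d_posZ.ne'
  have hz1 : ∀ n, (G.d : ℤ) * z (n + 1) = β n * Δ n * z n := by
    intro n
    have h1 := G.T_mul (G.T^[n₀ + (n + L)] x)
    have h2 := G.T_mul (G.T^[n₀ + n] x)
    rw [← Function.iterate_succ_apply' G.T] at h1 h2
    have e1 : G.res (G.T^[n₀ + (n + L)] x) = G.res (G.Y M x (n₀ + n)).2 := by
      rw [← G.res_Y hM, hper]
    have e2 : G.res (G.T^[n₀ + n] x) = G.res (G.Y M x (n₀ + n)).2 := by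
      rw [← G.res_Y hM]
    rw [e1] at h1
    rw [e2] at h2
    have e3 : (n₀ + (n + L)).succ = n₀ + (n + 1 + L) := by omega
    have e4 : (n₀ + n).succ = n₀ + (n + 1) := by omega
    rw [e3] at h1
    rw [e4] at h2
    simp only [hz, hβ, hΔ]
    linear_combination h1 - h2
  have hzl : ∀ l n, (G.d : ℤ) ^ l * z (n + l)
      = (∏ t ∈ Finset.range l, β (n + t)) * (∏ t ∈ Finset.range l, (Δ (n + t) : ℤ)) * z n := by
    intro l n
    induction l with
    | zero => simp
    | succ l ih =>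
      rw [Finset.prod_range_succ, Finset.prod_range_succ, pow_succ, ← add_assoc, mul_assoc,
        hz1 (n + l)]
      linear_combination (β (n + l) * (Δ (n + l) : ℤ)) * ih
  have hk1 : ∀ n, κ (n + 1) * γ n = Δ n * κ n := by
    intro n
    have h1 := G.nextK_mul (G.Y M x (n₀ + n))
    have h2 := G.Y_fst_succ hM x (n₀ + n)
    simp only [hκ, hγ, hΔ]
    rw [← add_assoc, h2]
    exact h1
  have hkl : ∀ l n, κ (n + l) * (∏ t ∈ Finset.range l, γ (n + t))
      = (∏ t ∈ Finset.range l, Δ (n + t)) * κ n := by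
    intro l n
    induction l with
    | zero => simp
    | succ l ih =>
      rw [Finset.prod_range_succ, Finset.prod_range_succ, ← add_assoc]
      have h1 := hk1 (n + l)
      calc κ (n + l + 1) * ((∏ t ∈ Finset.range l, γ (n + t)) * γ (n + l))
          = (κ (n + l + 1) * γ (n + l)) * (∏ t ∈ Finset.range l, γ (n + t)) := by ring
        _ = Δ (n + l) * (κ (n + l) * (∏ t ∈ Finset.range l, γ (n + t))) := by rw [h1]; ring
        _ = _ := by rw [ih]; ring
  have hκpos : ∀ n, 0 < κ n := fun n => G.kseq_pos x (n₀ + n)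
  have hκper : ∀ n, κ (n + L) = κ n := by
    intro n
    simp only [hκ]
    rw [hper]
  have hγΔ : ∀ n, (∏ t ∈ Finset.range L, γ (n + t)) = ∏ t ∈ Finset.range L, Δ (n + t) := by
    intro n
    have h1 := hkl L n
    rw [hκper, mul_comm] at h1
    exact Nat.eq_of_mul_eq_mul_right (hκpos n) h1
  have hγpos : ∀ n, 0 < γ n := fun n => G.gg_pos _
  have hγdvd : ∀ n, γ n ∣ G.d := fun n => G.gg_dvd _
  -- the expansion factor
  set E : ℕ := ∏ t ∈ Finset.range L, G.d / γ (i + t) with hE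
  set B : ℤ := ∏ t ∈ Finset.range L, β (i + t) with hB
  have hEd : (∏ t ∈ Finset.range L, γ (i + t)) * E = G.d ^ L := by
    rw [hE, ← Finset.prod_mul_distrib]
    calc ∏ t ∈ Finset.range L, (γ (i + t) * (G.d / γ (i + t)))
        = ∏ _t ∈ Finset.range L, G.d :=
          Finset.prod_congr rfl fun t _ => Nat.mul_div_cancel' (hγdvd _)
      _ = G.d ^ L := by rw [Finset.prod_const, Finset.card_range]
  have hE2 : 2 ≤ E := by
    have hfac : ∀ t, 1 ≤ G.d / γ (i + t) := fun t =>
      Nat.div_pos (Nat.le_of_dvd G.d_pos (hγdvd _)) (hγpos _)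
    have hlt : γ i < G.d := lt_of_le_of_ne (Nat.le_of_dvd G.d_pos (hγdvd _)) hne
    have h0 : 2 ≤ G.d / γ (i + 0) := by
      rw [add_zero]
      obtain ⟨c, hc⟩ := hγdvd i
      have hc2 : 2 ≤ c := by
        rcases Nat.lt_or_ge c 2 with h | h
        · interval_cases c
          · have := G.d_pos
            omega
          · omega
        · exact h
      rw [hc, Nat.mul_div_cancel_left _ (hγpos i)]
      exact hc2
    have h1 : G.d / γ (i + 0) ∣ E := by
      rw [hE]
      exact Finset.dvd_prod_of_mem (fun t => G.d / γ (i + t)) (Finset.mem_range.mpr hL)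
    have hEpos : 0 < E := by
      rw [hE]
      exact Finset.prod_pos fun t _ => hfac t
    exact h0.trans (Nat.le_of_dvd hEpos h1)
  have hcop : IsCoprime B (E : ℤ) := by
    have h1 : IsCoprime B ((G.d : ℤ) ^ L) := by
      rw [hB]
      apply IsCoprime.prod_left
      intro t _
      apply IsCoprime.pow_right
      exact G.cop _ (G.res_lt _)
    have h2 : (E : ℤ) ∣ (G.d : ℤ) ^ L := by
      have : E ∣ G.d ^ L := ⟨_, by rw [mul_comm]; exact hEd.symm⟩
      exact_mod_cast this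
    exact IsCoprime.of_isCoprime_of_dvd_right h1 h2
  have hβper : ∀ n, β (n + L) = β n := by
    intro n
    simp only [hβ]
    rw [hper]
  have hγper : ∀ n, γ (n + L) = γ n := by
    intro n
    simp only [hγ]
    rw [hper]
  have hperj : ∀ (f : ℕ → ℤ), (∀ n, f (n + L) = f n) → ∀ j n, f (n + j * L) = f n := by
    intro f hf j n
    induction j with
    | zero => simp
    | succ j ih =>
      rw [show n + (j + 1) * L = n + j * L + L by ring, hf, ih]
  have hmain : ∀ j, (E : ℤ) * z (i + (j + 1) * L) = B * z (i + j * L) := by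
    intro j
    have h1 := hzl L (i + j * L)
    have h2 : (∏ t ∈ Finset.range L, β (i + j * L + t)) = B := by
      rw [hB]
      apply Finset.prod_congr rfl
      intro t _
      rw [show i + j * L + t = i + t + j * L by ring]
      exact hperj β hβper j (i + t)
    have h3 : (∏ t ∈ Finset.range L, (Δ (i + j * L + t) : ℤ))
        = ((∏ t ∈ Finset.range L, γ (i + t) : ℕ) : ℤ) := by
      rw [← Nat.cast_prod, ← hγΔ, Nat.cast_prod, Nat.cast_prod]
      apply Finset.prod_congr rfl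
      intro t _
      rw [show i + j * L + t = i + t + j * L by ring]
      exact hperj (fun n => (γ n : ℤ)) (fun n => by simp only [hγper]) j (i + t)
    rw [h2, h3] at h1
    have h4 : ((G.d : ℤ) ^ L) = ((∏ t ∈ Finset.range L, γ (i + t) : ℕ) : ℤ) * (E : ℤ) := by
      exact_mod_cast hEd.symm
    rw [h4] at h1
    have h5 : ((∏ t ∈ Finset.range L, γ (i + t) : ℕ) : ℤ) ≠ 0 := by
      have : 0 < ∏ t ∈ Finset.range L, γ (i + t) := Finset.prod_pos fun t _ => hγpos _
      exact_mod_cast this.ne'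
    apply mul_left_cancel₀ h5
    rw [show i + (j + 1) * L = i + j * L + L by ring]
    linear_combination h1
  have hpow : ∀ r j : ℕ, (E : ℤ) ^ r ∣ z (i + j * L) := by
    intro r
    induction r with
    | zero => intro j; simp
    | succ r ih =>
      intro j
      have h1 : (E : ℤ) ^ (r + 1) ∣ B * z (i + j * L) := by
        rw [← hmain j, pow_succ']
        exact mul_dvd_mul_left _ (ih (j + 1))
      exact (IsCoprime.pow_left hcop.symm).dvd_of_dvd_mul_left h1
  have hzero : z i = 0 := by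
    by_contra hz0
    have h1 := hpow (z i).natAbs 0
    rw [zero_mul, add_zero] at h1
    have h2 : (E ^ (z i).natAbs : ℕ) ∣ (z i).natAbs := by
      have := Int.natAbs_dvd_natAbs.mpr h1
      simpa [Int.natAbs_pow] using this
    have h3 := Nat.le_of_dvd (Int.natAbs_pos.mpr hz0) h2
    have h4 : (z i).natAbs < E ^ (z i).natAbs := Nat.lt_pow_self (by omega)
    omega
  apply hdiv
  refine ⟨n₀ + i, L, hL, ?_⟩
  have := sub_eq_zero.mp hzero
  rw [← add_assoc] at this
  exact this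

/-! ### Frequencies of a purely periodic sequence -/

lemma bounded_of_periodic {e : ℕ → ℝ} {n₀ L : ℕ} (hL : 0 < L)
    (h : ∀ n ≥ n₀, e (n + L) = e n) : ∃ C : ℝ, ∀ n, |e n| ≤ C := by
  refine ⟨∑ i ∈ Finset.range (n₀ + L), |e i|, ?_⟩
  intro n
  induction n using Nat.strong_induction_on with
  | _ n ih =>
    by_cases hn : n < n₀ + L
    · exact Finset.single_le_sum (f := fun i => |e i|) (fun i _ => abs_nonneg _)
        (Finset.mem_range.mpr hn)
    · have h1 := h (n - L) (by omega)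
      rw [show n - L + L = n by omega] at h1
      rw [h1]
      exact ih (n - L) (by omega)

open Classical in
/-- The frequency with which a sequence that is injective on a period hits a value. -/
lemma tendsto_freq {y : ℕ → State} {n₀ L : ℕ} (hL : 0 < L)
    (hper : ∀ i, y (n₀ + (i + L)) = y (n₀ + i))
    (hinj : ∀ i < L, ∀ j < L, y (n₀ + i) = y (n₀ + j) → i = j) {i₀ : ℕ} (hi₀ : i₀ < L) :
    Tendsto (fun K : ℕ =>
        (((Finset.range (K + 1)).filter fun n => y n = y (n₀ + i₀)).card : ℝ) / ((K : ℝ) + 1))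
        atTop (𝓝 (1 / (L : ℝ))) := by
  set cnt : ℕ → ℕ := fun K => ((Finset.range K).filter fun n => y n = y (n₀ + i₀)).card with hcnt
  have hLR : (0 : ℝ) < L := by exact_mod_cast hL
  -- one hit in every window of length `L`
  have hwin : ∀ K ≥ n₀, cnt (K + L) = cnt K + 1 := by
    intro K hK
    obtain ⟨k, rfl⟩ := Nat.exists_eq_add_of_le hK
    set p : ℕ → Prop := fun i => y (n₀ + i) = y (n₀ + i₀) with hp
    have hpper : Function.Periodic p L := by
      intro i
      simp only [hp]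
      rw [hper]
    have h1 : ((Finset.Ico k (k + L)).filter p).card = Nat.count p L :=
      Nat.filter_Ico_card_eq_of_periodic k L p hpper
    have h2 : Nat.count p L = 1 := by
      rw [Nat.count_eq_card_filter_range, Finset.card_eq_one]
      refine ⟨i₀, ?_⟩
      ext i
      simp only [Finset.mem_filter, Finset.mem_range, Finset.mem_singleton, hp]
      constructor
      · rintro ⟨h3, h4⟩
        exact hinj i h3 i₀ hi₀ h4
      · rintro rfl
        exact ⟨hi₀, rfl⟩
    have h3 : (Finset.range (n₀ + k + L)).filter (fun n => y n = y (n₀ + i₀))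
        = (Finset.range (n₀ + k)).filter (fun n => y n = y (n₀ + i₀)) ∪
          ((Finset.Ico k (k + L)).filter p).map (addLeftEmbedding n₀) := by
      ext n
      simp only [Finset.mem_filter, Finset.mem_range, Finset.mem_union, Finset.mem_map,
        Finset.mem_Ico, addLeftEmbedding_apply, hp]
      constructor
      · rintro ⟨h4, h5⟩
        by_cases h6 : n < n₀ + k
        · exact Or.inl ⟨h6, h5⟩
        · right
          refine ⟨n - n₀, ⟨⟨by omega, by omega⟩, ?_⟩, by omega⟩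
          rw [show n₀ + (n - n₀) = n by omega]
          exact h5
      · rintro (⟨h4, h5⟩ | ⟨i, ⟨⟨h4, h5⟩, h6⟩, rfl⟩)
        · exact ⟨by omega, h5⟩
        · exact ⟨by omega, h6⟩
    have h4 : Disjoint ((Finset.range (n₀ + k)).filter (fun n => y n = y (n₀ + i₀)))
        (((Finset.Ico k (k + L)).filter p).map (addLeftEmbedding n₀)) := by
      rw [Finset.disjoint_left]
      intro n h5 h6
      simp only [Finset.mem_filter, Finset.mem_range, Finset.mem_map,
        Finset.mem_Ico, addLeftEmbedding_apply] at h5 h6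
      obtain ⟨i, ⟨⟨h7, -⟩, -⟩, rfl⟩ := h6
      omega
    simp only [hcnt]
    rw [h3, Finset.card_union_of_disjoint h4, Finset.card_map, h1, h2]
  set e : ℕ → ℝ := fun K => (cnt K : ℝ) - K / L with he
  have heper : ∀ n ≥ n₀, e (n + L) = e n := by
    intro n hn
    simp only [he]
    rw [hwin n hn]
    push_cast
    field_simp
    ring
  obtain ⟨C, hC⟩ := bounded_of_periodic hL heper
  have hlim : Tendsto (fun K : ℕ => e (K + 1) / ((K : ℝ) + 1)) atTop (𝓝 0) := by
    have h1 : Tendsto (fun K : ℕ => C / ((K : ℝ) + 1)) atTop (𝓝 0) :=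
      tendsto_const_nhds.div_atTop
        (tendsto_atTop_add_const_right _ _ tendsto_natCast_atTop_atTop)
    refine squeeze_zero_norm (fun K => ?_) h1
    rw [Real.norm_eq_abs, abs_div, abs_of_pos (by positivity : (0 : ℝ) < (K : ℝ) + 1)]
    exact div_le_div_of_nonneg_right (hC _) (by positivity)
  have hfinal : (fun K : ℕ => ((cnt (K + 1) : ℕ) : ℝ) / ((K : ℝ) + 1))
      = fun K : ℕ => 1 / (L : ℝ) + e (K + 1) / ((K : ℝ) + 1) := by
    ext K
    have hK : (0 : ℝ) < (K : ℝ) + 1 := by positivity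
    simp only [he]
    push_cast
    field_simp
    ring
  have hgoal : Tendsto (fun K : ℕ => ((cnt (K + 1) : ℕ) : ℝ) / ((K : ℝ) + 1))
      atTop (𝓝 (1 / (L : ℝ))) := by
    rw [hfinal]
    simpa using (tendsto_const_nhds (x := 1 / (L : ℝ))).add hlim
  exact hgoal

/-- The main argument. -/
lemma leighHolds_of_divergent (hM : G.d ∣ M) (hM0 : 0 < M) (hfin : (G.states M).Finite)
    (H : G.BranchingLoopsContract M) {x : ℤ} (hdiv : G.Divergent x) : G.LeighHolds M x := by
  classical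
  have hnb : ∀ s ∈ Inf G M x, ¬ G.Branching M s := by
    intro s hs hb
    obtain ⟨n₀, C, hC⟩ := bounded_of_branching hM hM0 hfin H hs hb
    exact not_divergent_of_bounded hC hdiv
  obtain ⟨n₀, L, hL, hper, hinj⟩ := periodic_data hM hM0 hfin hnb
  have hgg := gg_eq_of_periodic hM hdiv hL hper
  set φ : ℕ → State := fun i => G.Y M x (n₀ + i) with hφ
  have hperj : ∀ j i, φ (i + j * L) = φ i := by
    intro j i
    induction j with
    | zero => simp
    | succ j ih =>
      rw [show i + (j + 1) * L = i + j * L + L by ring]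
      simp only [hφ] at ih ⊢
      rw [hper, ih]
  have hmod : ∀ i, φ i = φ (i % L) := by
    intro i
    conv_lhs => rw [← Nat.mod_add_div i L, mul_comm L]
    exact hperj _ _
  have hsucc : ∀ i, G.Succ M (φ i) (φ (i + 1)) := fun i => G.Y_succ hM hM0 x (n₀ + i)
  have huniq : ∀ i t, G.Succ M (φ i) t → t = φ (i + 1) := fun i t ht =>
    G.succ_unique (hgg i) ht (hsucc i)
  set S : Finset State := (Finset.range L).image φ with hS
  have hmemS : ∀ i, φ i ∈ S := by
    intro i
    rw [hS, Finset.mem_image]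
    exact ⟨i % L, Finset.mem_range.mpr (Nat.mod_lt _ hL), (hmod i).symm⟩
  have hinjOn : Set.InjOn φ (Finset.range L : Set ℕ) := by
    intro i hi j hj hij
    rw [Finset.mem_coe, Finset.mem_range] at hi hj
    exact hinj i hi j hj hij
  have hLR : (0 : ℝ) < L := by exact_mod_cast hL
  have hdR : (0 : ℝ) < G.d := by exact_mod_cast G.d_pos
  have hreach : ∀ i l, Relation.ReflTransGen (G.Step M) (φ i) (φ (i + l)) := by
    intro i l
    have := G.Y_reach hM hM0 x (n₀ + i) l
    rw [add_assoc] at this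
    exact this
  -- sums over the class
  have hsum : ∀ f : State → ℝ, ∑ᶠ s ∈ (S : Set State), f s = ∑ i ∈ Finset.range L, f (φ i) := by
    intro f
    rw [finsum_mem_coe_finset, hS, Finset.sum_image hinjOn]
  -- the flow into a state of the class
  have hflow : ∀ (ρ : State → ℝ) (i : ℕ),
      ∑ᶠ s ∈ (S : Set State), ρ s * G.q M s (φ (i + 1)) = ρ (φ i) := by
    intro ρ i
    rw [hsum, Finset.sum_eq_single (i % L)]
    · rw [← hmod i, G.q_of_succ (hsucc i)]
      have h1 : G.gg (φ i) = G.d := hgg i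
      rw [h1, div_self hdR.ne', mul_one]
    · intro j hj hji
      rw [Finset.mem_range] at hj
      rw [G.q_of_not_succ, mul_zero]
      intro hcon
      have h1 := huniq j _ hcon
      -- go around the cycle once to recover the index
      have h2 : ∀ t, φ (i + 1 + t) = φ (j + 1 + t) := by
        intro t
        induction t with
        | zero => simpa using h1
        | succ t ih =>
          have h3 := hsucc (i + 1 + t)
          have h4 := hsucc (j + 1 + t)
          rw [← ih] at h4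
          have h5 := huniq (i + 1 + t) _ h4
          exact h5.symm
      have h3 := h2 (L - 1)
      have h4 : φ (i + 1 + (L - 1)) = φ i := by
        have := hperj 1 i
        rw [one_mul] at this
        rw [show i + 1 + (L - 1) = i + L by omega]
        exact this
      have h5 : φ (j + 1 + (L - 1)) = φ j := by
        have := hperj 1 j
        rw [one_mul] at this
        rw [show j + 1 + (L - 1) = j + L by omega]
        exact this
      rw [h4, h5, hmod i] at h3
      exact hji (hinj _ (Nat.mod_lt _ hL) _ hj h3).symm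
    · intro hcon
      exact absurd (Finset.mem_range.mpr (Nat.mod_lt _ hL)) hcon
  refine ⟨(S : Set State), ⟨?_, ?_, ?_, ?_⟩, ?_, fun _ => 1 / (L : ℝ), ⟨?_, ?_, ?_⟩, ?_, ?_⟩
  · -- states
    intro s hs
    rw [Finset.mem_coe, hS, Finset.mem_image] at hs
    obtain ⟨i, -, rfl⟩ := hs
    exact G.Y_mem hM hM0 x _
  · exact ⟨φ 0, hmemS 0⟩
  · -- closed
    intro s hs t ht
    rw [Finset.mem_coe, hS, Finset.mem_image] at hs
    obtain ⟨i, -, rfl⟩ := hs
    rw [huniq i t ((G.step_iff _ _).1 ht)]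
    exact hmemS _
  · -- communicating
    intro s hs t ht
    rw [Finset.mem_coe, hS, Finset.mem_image] at hs ht
    obtain ⟨i, -, rfl⟩ := hs
    obtain ⟨j, -, rfl⟩ := ht
    have h1 := hreach i (j + i * L - i)
    have h2 : i ≤ i * L := Nat.le_mul_of_pos_right i hL
    rw [show i + (j + i * L - i) = j + i * L by omega, hperj] at h1
    exact h1
  · -- the trajectory is in the class
    rw [Filter.eventually_atTop]
    refine ⟨n₀, fun n hn => ?_⟩
    obtain ⟨i, rfl⟩ := Nat.exists_eq_add_of_le hn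
    rw [Set.mem_iUnion₂]
    exact ⟨φ i, hmemS i, G.Y_mem_cls x (n₀ + i)⟩
  · intro s _
    positivity
  · rw [hsum, Finset.sum_const, Finset.card_range, nsmul_eq_mul]
    field_simp
  · intro t ht
    rw [Finset.mem_coe, hS, Finset.mem_image] at ht
    obtain ⟨j, -, rfl⟩ := ht
    have h1 := hflow (fun _ => 1 / (L : ℝ)) (j + L - 1)
    rw [show j + L - 1 + 1 = j + 1 * L by omega, hperj] at h1
    exact h1
  · -- uniqueness
    intro ρ' hρ' s hs
    obtain ⟨-, h2, h3⟩ := hρ'
    have hconst : ∀ i, ρ' (φ i) = ρ' (φ 0) := by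
      intro i
      induction i with
      | zero => rfl
      | succ i ih =>
        have h4 := h3 (φ (i + 1)) (hmemS _)
        rw [hflow ρ' i] at h4
        rw [← h4, ih]
    rw [hsum] at h2
    have h5 : (L : ℝ) * ρ' (φ 0) = 1 := by
      rw [← h2, Finset.sum_congr rfl (fun i _ => hconst i), Finset.sum_const, Finset.card_range,
        nsmul_eq_mul]
    rw [Finset.mem_coe, hS, Finset.mem_image] at hs
    obtain ⟨i, -, rfl⟩ := hs
    rw [hconst i, eq_div_iff hLR.ne', mul_comm]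
    exact h5
  · intro s hs
    rw [Finset.mem_coe, hS, Finset.mem_image] at hs
    obtain ⟨i, hi, rfl⟩ := hs
    rw [Finset.mem_range] at hi
    have := tendsto_freq (y := G.Y M x) hL hper hinj hi
    simp only [hφ]
    convert this

/-! ### Maps all of whose `b_i` are `1` or `-1` -/

lemma fst_pos_of_mem_states {s : State} (hs : s ∈ G.states M) : 0 < s.1 := by
  obtain ⟨i, -, -, h⟩ := hs
  induction h with
  | refl => exact Nat.one_pos
  | tail _ h2 ih =>
    have h3 := ((G.step_iff _ _).1 h2).1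
    rw [h3]
    exact G.nextK_pos ih

lemma branchingLoopsContract_of_unit (hb : ∀ i < G.d, |G.b i| = 1) :
    G.BranchingLoopsContract M := by
  intro n g hstep hclosed hmem hbr
  have hdR : (0 : ℝ) < G.d := by exact_mod_cast G.d_pos
  have hk : ∀ l ≤ n, (g l).1 * (∏ t ∈ Finset.range l, G.gg (g t))
      = (∏ t ∈ Finset.range l, G.D (G.res (g t).2)) * (g 0).1 := by
    intro l
    induction l with
    | zero => intro _; simp
    | succ l ih =>
      intro hl
      have h1 := ((G.step_iff _ _).1 (hstep l (by omega))).1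
      have h2 := G.nextK_mul (g l)
      have h3 := ih (by omega)
      rw [Finset.prod_range_succ, Finset.prod_range_succ, h1]
      calc G.nextK (g l).1 (g l).2 * ((∏ t ∈ Finset.range l, G.gg (g t)) * G.gg (g l))
          = (G.nextK (g l).1 (g l).2 * G.gg (g l)) * (∏ t ∈ Finset.range l, G.gg (g t)) := by ring
        _ = G.D (G.res (g l).2) * ((g l).1 * (∏ t ∈ Finset.range l, G.gg (g t))) := by
            rw [h2]; ring
        _ = _ := by rw [h3]; ring
  have hprod : (∏ t ∈ Finset.range n, G.gg (g t))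
      = ∏ t ∈ Finset.range n, G.D (G.res (g t).2) := by
    have h1 := hk n le_rfl
    rw [hclosed, mul_comm] at h1
    exact Nat.eq_of_mul_eq_mul_right (fst_pos_of_mem_states hmem) h1
  have hm : ∀ s : State, G.mult s = (G.D (G.res s.2) : ℝ) / G.d := by
    intro s
    unfold mult
    have h1 := hb (G.res s.2) (G.res_lt _)
    have h2 : |((G.b (G.res s.2) * G.D (G.res s.2) : ℤ) : ℝ)| = (G.D (G.res s.2) : ℝ) := by
      rw [← Int.cast_abs, abs_mul, h1, one_mul]
      simp
    rw [h2]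
  have h1 : ∏ i ∈ Finset.range n, G.mult (g i)
      = ∏ i ∈ Finset.range n, ((G.gg (g i) : ℝ) / G.d) := by
    have h2 : ∏ t ∈ Finset.range n, (G.gg (g t) : ℝ)
        = ∏ t ∈ Finset.range n, (G.D (G.res (g t).2) : ℝ) := by exact_mod_cast hprod
    rw [Finset.prod_congr rfl (fun i _ => hm (g i)), Finset.prod_div_distrib,
      Finset.prod_div_distrib, h2]
  rw [h1]
  obtain ⟨i, hi, t, t', hne, h2, h3, -, -⟩ := hbr
  have hlt : G.gg (g i) < G.d := by
    apply lt_of_le_of_ne (Nat.le_of_dvd G.d_pos (G.gg_dvd _))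
    intro heq
    exact hne (G.succ_unique heq ((G.step_iff _ _).1 h2) ((G.step_iff _ _).1 h3))
  have hle : ∀ s : State, (G.gg s : ℝ) / G.d ≤ 1 := by
    intro s
    rw [div_le_one hdR]
    exact_mod_cast Nat.le_of_dvd G.d_pos (G.gg_dvd s)
  have h0 : ∀ s : State, 0 < (G.gg s : ℝ) / G.d := by
    intro s
    have : (0 : ℝ) < G.gg s := by exact_mod_cast G.gg_pos s
    positivity
  rw [← Finset.mul_prod_erase (Finset.range n) _ (Finset.mem_range.mpr hi)]
  have h4 : (G.gg (g i) : ℝ) / G.d < 1 := by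
    rw [div_lt_one hdR]
    exact_mod_cast hlt
  have h5 : ∏ x ∈ (Finset.range n).erase i, ((G.gg (g x) : ℝ) / G.d) ≤ 1 :=
    Finset.prod_le_one (fun x _ => (h0 _).le) (fun x _ => hle _)
  calc (G.gg (g i) : ℝ) / G.d * ∏ x ∈ (Finset.range n).erase i, ((G.gg (g x) : ℝ) / G.d)
      ≤ (G.gg (g i) : ℝ) / G.d * 1 := mul_le_mul_of_nonneg_left h5 (h0 _).le
    _ < 1 := by rw [mul_one]; exact h4

end GenMap

/-- Leigh's conjecture for the maps all of whose branching loops contract; this class contains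
each map with `b_i = 1` or `b_i = -1` for all `i`. -/
theorem result (G : GenMap) (M : ℕ) (hM : G.d ∣ M) (hM0 : 0 < M)
    (hfin : (G.states M).Finite) :
    (G.BranchingLoopsContract M → ∀ x : ℤ, G.Divergent x → G.LeighHolds M x) ∧
      ((∀ i < G.d, |G.b i| = 1) → G.BranchingLoopsContract M) :=
  ⟨fun H _ hx => GenMap.leighHolds_of_divergent hM hM0 hfin H hx,
    fun hb => GenMap.branchingLoopsContract_of_unit hb⟩

end Pool.Agent.Results.MP_f73544_nt.ContractingLoops
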